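import Pool.Agent.H917R3.Sphere
import Pool.Agent.H917R3.FlipExchange

/-!
# Laurentness in triangulation charts versus all cluster charts for PGL_3
-/

open Pool.Agent.H917R3.XC

namespace Pool.Agent.Results.MP_e62c8e_ag.TriangulationCharts

/-- Let `Δ` be an ideal triangulation (without self-folded triangles) of a punctured surface. Every
rational function regular on the charts of all the ideal triangulations obtained from `Δ` by flips
is regular on all the cluster charts if and only if the surface is not the thrice-punctured sphere.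
Moreover, the charts obtained by flips are the seeds of ideal triangulations: their exchange
matrices are the ones of the flipped triangulations. The thrice-punctured sphere occurs. -/
theorem result :
    (∀ (H V : Type) [Fintype H] [DecidableEq H] [Fintype V] [DecidableEq V] (Δ : Tri H V),
      Δ.IsIdeal →
      ((∀ f : FractionRing (MvPolynomial V ℂ),
          (∀ Δ' s', TriChart Δ Δ.seed Δ' s' → s'.Regular f) →
          ∀ t, MutEquiv Δ.seed t → t.Regular f) ↔ ¬ Δ.HasType 0 3) ∧
      (∀ Δ' s', TriChart Δ Δ.seed Δ' s' → Δ'.IsIdeal ∧ s'.ε = Δ'.exchange)) ∧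
    (∃ Δ : Tri (Fin 3 × Bool) ((Fin 3 × Bool) ⊕ Bool), Δ.IsIdeal ∧ Δ.HasType 0 3) := by
  refine ⟨?_, sphere, sphere_ideal, sphere_type⟩
  intro H V _ _ _ _ Δ hΔ
  refine ⟨⟨?_, ?_⟩, fun Δ' s' h => TriChart.correct hΔ rfl h⟩
  · intro h ht
    obtain ⟨f, h1, t, h2, h3⟩ := negative hΔ ht
    exact h3 (h f h1 t h2)
  · intro ht f hf t h
    exact positive hΔ (notPillow_of_not_type hΔ ht) (seed_good hΔ) hf t h

end Pool.Agent.Results.MP_e62c8e_ag.TriangulationCharts
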